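import Pool.Agent.H73.PHS.Stmts

set_option autoImplicit false

open Set Filter Topology MeasureTheory Metric

namespace Pool.PHS

theorem pio_det_cont {E : Type} [NormedAddCommGroup E] [NormedSpace ℝ E] [FiniteDimensional ℝ E]
    {ι : Type} [Fintype ι] [DecidableEq ι] (b : Module.Basis ι ℝ E) :
    Continuous (fun v : ι → E => b.det v) := by
  have h : (fun v : ι → E => b.det v) = fun v => (b.toMatrix v).det := by
    funext v
    exact b.det_apply v
  rw [h]
  apply Continuous.matrix_det
  apply continuous_matrix
  intro i j
  have h2 : (fun v : ι → E => b.toMatrix v i j) = fun v => b.coord i (v j) := by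
    funext v
    rw [Module.Basis.toMatrix_apply, Module.Basis.coord_apply]
  rw [h2]
  exact (b.coord i).continuous_of_finiteDimensional.comp (continuous_apply j)

theorem pio_anti {ι : Type} [Fintype ι] (f : ι → ι → ℝ) (h : ∀ i j, f i j = - f j i) :
    ∑ j, ∑ i, f j i = 0 := by
  have h1 : ∑ j, ∑ i, f j i = ∑ j, ∑ i, - f i j := by
    refine Finset.sum_congr rfl fun j _ => Finset.sum_congr rfl fun i _ => h j i
  have h2 : ∑ j, ∑ i, - f i j = - ∑ j, ∑ i, f j i := by
    rw [Finset.sum_comm]
    simp only [Finset.sum_neg_distrib]
  linarith

theorem PIO_thm : PIOStmt := by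
  intro E _ _ _ ι _ _ b G H U hU hG hH z hz
  let D : ContinuousMultilinearMap ℝ (fun _ : ι => E) ℝ :=
    ⟨b.det.toMultilinearMap, pio_det_cont b⟩
  have hD : ∀ v : ι → E, D v = b.det v := fun _ => rfl
  have hUz : U ∈ 𝓝 z := hU.mem_nhds hz
  have hG2 : ContDiffAt ℝ 2 G z := hG.contDiffAt hUz
  have hG1 : DifferentiableAt ℝ (fderiv ℝ G) z :=
    (hG2.fderiv_right (m := 1) (by norm_num)).differentiableAt (by norm_num)
  have hH1 : DifferentiableAt ℝ H z := (hH.contDiffAt hUz).differentiableAt (by norm_num)
  set g : ι → E := fun i => fderiv ℝ G z (b i) with hg
  set S := fderiv ℝ (fderiv ℝ G) z with hS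
  have hsymm : ∀ u v, S u v = S v u := fun u v =>
    (hG2.isSymmSndFDerivAt (by simp)) u v
  have hder : ∀ j, fderiv ℝ (fun y => b.det (Function.update (fun i => fderiv ℝ G y (b i)) j (H y)))
      z (b j) = ∑ i, b.det (Function.update (Function.update g j (H z)) i
        (if i = j then fderiv ℝ H z (b j) else S (b j) (b i))) := by
    intro j
    have hc : HasFDerivAt (fun y => Function.update (fun i => fderiv ℝ G y (b i)) j (H y))
        (ContinuousLinearMap.pi (fun i => if i = j then fderiv ℝ H z else
          (ContinuousLinearMap.apply ℝ E (b i)).comp S)) z := by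
      rw [hasFDerivAt_pi]
      intro i
      by_cases hij : i = j
      · subst hij
        simp only [Function.update_self, if_true]
        exact hH1.hasFDerivAt
      · simp only [Function.update_of_ne hij, if_neg hij]
        exact (ContinuousLinearMap.apply ℝ E (b i)).hasFDerivAt.comp z hG1.hasFDerivAt
    have hd : HasFDerivAt D (D.linearDeriv (Function.update g j (H z)))
        (Function.update g j (H z)) := D.hasFDerivAt _
    have hcomp := hd.comp z hc
    have heq : (fun y => b.det (Function.update (fun i => fderiv ℝ G y (b i)) j (H y))) =
        D ∘ (fun y => Function.update (fun i => fderiv ℝ G y (b i)) j (H y)) := rfl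
    rw [heq, hcomp.fderiv, ContinuousLinearMap.comp_apply,
      ContinuousMultilinearMap.linearDeriv_apply]
    refine Finset.sum_congr rfl fun i _ => ?_
    rw [hD, ContinuousLinearMap.pi_apply]
    by_cases hij : i = j
    · simp only [hij, if_true]
    · simp only [if_neg hij]
      rfl
  -- split off the diagonal term
  have hsplit : ∀ j, ∑ i, b.det (Function.update (Function.update g j (H z)) i
        (if i = j then fderiv ℝ H z (b j) else S (b j) (b i))) =
      b.det (Function.update g j (fderiv ℝ H z (b j))) +
      ∑ i, (if i = j then 0 else
        b.det (Function.update (Function.update g j (H z)) i (S (b j) (b i)))) := by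
    intro j
    have h1 : b.det (Function.update g j (fderiv ℝ H z (b j))) =
        ∑ i, (if i = j then b.det (Function.update g j (fderiv ℝ H z (b j))) else 0) := by
      rw [Finset.sum_ite_eq' Finset.univ j]
      simp
    rw [h1, ← Finset.sum_add_distrib]
    refine Finset.sum_congr rfl fun i _ => ?_
    by_cases hij : i = j
    · subst hij
      simp only [if_true, Function.update_idem, add_zero]
    · simp only [if_neg hij, zero_add]
  have hanti : ∑ j, ∑ i, (if i = j then (0 : ℝ) else
        b.det (Function.update (Function.update g j (H z)) i (S (b j) (b i)))) = 0 := by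
    apply pio_anti (fun j i => if i = j then (0 : ℝ) else
        b.det (Function.update (Function.update g j (H z)) i (S (b j) (b i))))
    intro j i
    by_cases hij : i = j
    · subst hij
      simp
    · have hji : ¬ j = i := fun h => hij h.symm
      simp only [if_neg hij, if_neg hji]
      have hsw := b.det.map_swap (Function.update (Function.update g i (H z)) j (S (b i) (b j))) hij
      have hv : (Function.update (Function.update g i (H z)) j (S (b i) (b j))) ∘
          (Equiv.swap i j) = Function.update (Function.update g j (H z)) i (S (b j) (b i)) := by
        funext k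
        simp only [Function.comp_apply]
        by_cases hki : k = i
        · subst hki
          rw [Equiv.swap_apply_left, Function.update_self, Function.update_self, hsymm]
        · by_cases hkj : k = j
          · subst hkj
            rw [Equiv.swap_apply_right, Function.update_of_ne hij, Function.update_self,
              Function.update_of_ne hki, Function.update_self]
          · rw [Equiv.swap_apply_of_ne_of_ne hki hkj, Function.update_of_ne hkj,
              Function.update_of_ne hki, Function.update_of_ne hki, Function.update_of_ne hkj]
      rw [hv] at hsw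
      exact hsw
  calc ∑ j, fderiv ℝ (fun y => b.det (Function.update (fun i => fderiv ℝ G y (b i)) j (H y))) z
        (b j) = ∑ j, (b.det (Function.update g j (fderiv ℝ H z (b j))) +
      ∑ i, (if i = j then 0 else
        b.det (Function.update (Function.update g j (H z)) i (S (b j) (b i))))) := by
        refine Finset.sum_congr rfl fun j _ => ?_
        rw [hder j, hsplit j]
    _ = ∑ j, b.det (Function.update g j (fderiv ℝ H z (b j))) := by
        rw [Finset.sum_add_distrib, hanti, add_zero]

end Pool.PHS
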